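import Pool.Agent.H92.S2.LUT2
import Pool.Agent.H19.SFU.RES

/-!
# MP_70ba79_ag, THEOREM S, part 2: coefficients divisible by `G` (RES2)
-/

set_option autoImplicit false

namespace Pool.Agent.H19.SFV

open MvPolynomial
open Pool.Agent.H84.SM (dp cr dt)
open Pool.Agent.H3.SF Pool.Agent.H3.S2 Pool.Agent.H92.SF Pool.Agent.H92.S2
open Pool.Agent.H19.SFU (nab_Psi hM nab_coeff)

theorem pf_RES2 (hDAT : T_DAT2) : T_RES2 := by
  intro k F _ _ _ _ _ u dd δ j0 c0 J m G hG V hint h0
  obtain ⟨hDt, -, -, -, -, -, -, -, hJg, hJH⟩ := hDAT k F u dd δ j0 c0 J m G hG.toBw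
  have hG0 : G ≠ 0 := hG.ne
  have hn := nab_Psi m u (grd dd G) G (hes dd G) (aeval u J) hDt V
  -- integrality of `J h`
  have hpi : Itg k u (aeval u J) := by
    have h := ((aeval u : MvPolynomial (Fin 3) k →ₐ[k] F) :
      MvPolynomial (Fin 3) k →+* F).isIntegralElem_map (x := J)
    exact h
  have hadd : ∀ P Q : MvPolynomial (Fin 3) F, (∀ a, P.coeff a ∈ Bb k u) →
      (∀ a, Q.coeff a ∈ Bb k u) → ∀ a, (P + Q).coeff a ∈ Bb k u := fun P Q hP hQ a => by
    rw [coeff_add]
    exact (Bb k u).add_mem (hP a) (hQ a)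
  have hmul : ∀ P Q : MvPolynomial (Fin 3) F, (∀ a, P.coeff a ∈ Bb k u) →
      (∀ a, Q.coeff a ∈ Bb k u) → ∀ a, (P * Q).coeff a ∈ Bb k u := fun P Q hP hQ a => by
    rw [coeff_mul]
    exact (Bb k u).sum_mem fun x _ => (Bb k u).mul_mem (hP _) (hQ _)
  have hsub : ∀ P Q : MvPolynomial (Fin 3) F, (∀ a, P.coeff a ∈ Bb k u) →
      (∀ a, Q.coeff a ∈ Bb k u) → ∀ a, (P - Q).coeff a ∈ Bb k u := fun P Q hP hQ a => by
    rw [coeff_sub]
    exact (Bb k u).sub_mem (hP a) (hQ a)
  have hsum : ∀ f : Fin 3 → MvPolynomial (Fin 3) F, (∀ i a, (f i).coeff a ∈ Bb k u) →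
      ∀ a, (∑ i, f i).coeff a ∈ Bb k u := fun f hf a => by
    rw [coeff_sum]
    exact (Bb k u).sum_mem fun i _ => hf i a
  have hC : ∀ c : F, c ∈ Bb k u → ∀ a, (C c : MvPolynomial (Fin 3) F).coeff a ∈ Bb k u := by
    intro c hc a
    rw [coeff_C]
    split_ifs
    exacts [hc, (Bb k u).zero_mem]
  have hX : ∀ i a, (X i : MvPolynomial (Fin 3) F).coeff a ∈ Bb k u := by
    intro i a
    rw [coeff_X]
    split_ifs
    exacts [(Bb k u).one_mem, (Bb k u).zero_mem]
  have hJM : ∀ a, aeval u J * (hM (grd dd G) (hes dd G) (aeval u J)).coeff a ∈ Bb k u := by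
    intro a
    obtain ⟨gx', hgx'⟩ : ∃ gx' : Fin 3 → MvPolynomial (Fin 3) F,
        gx' = cr (fun i => C (aeval u J * dd i G)) X := ⟨_, rfl⟩
    have e1 : C (aeval u J) * hM (grd dd G) (hes dd G) (aeval u J) =
        C (aeval u J ^ 3) * hq (fun i j => C (aeval u J ^ 2 * dd i (dd j G))) gx' gx' := by
      have e2 : ∀ i, gx' i = C (aeval u J) * cr (fun i => C (dd i G)) X i := by
        intro i
        rw [hgx']
        simp only [cr, C_mul]
        ring
      unfold hM hq
      simp only [e2, Finset.mul_sum, C_mul, C_pow, grd, hes]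
      refine Finset.sum_congr rfl fun i _ => Finset.sum_congr rfl fun j _ => ?_
      ring
    rw [← coeff_C_mul, e1]
    have hgI : ∀ i a, (gx' i).coeff a ∈ Bb k u := by
      intro i
      rw [hgx']
      exact hsub _ _ (hmul _ _ (hC _ (hJg _)) (hX _)) (hmul _ _ (hC _ (hJg _)) (hX _))
    refine hmul _ _ (hC _ ((Bb k u).pow_mem hpi 3)) ?_ a
    refine hsum _ fun i => hsum _ fun j => ?_
    exact hmul _ _ (hmul _ _ (hC _ (hJH i j)) (hgI i)) (hgI j)
  -- the induction
  have hmain : ∀ x : ℕ, ∀ (j : ℕ) (a : Fin 3 →₀ ℕ), a 2 = x →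
      aeval u J * cf u dd J m G V j a / G ∈ Bb k u := by
    intro x
    induction x using Nat.strong_induction_on with
    | _ x ih =>
      intro j a hax
      rcases Nat.eq_zero_or_pos x with hx | hx
      · have h1 := (Bb k u).mul_mem hpi (h0 j a (by omega))
        rwa [mul_div_assoc']  at h1
      obtain ⟨a0, ha0⟩ : ∃ a0 : Fin 3 →₀ ℕ, a = a0 + Finsupp.single 2 1 := by
        refine ⟨a - Finsupp.single 2 1, ?_⟩
        rw [tsub_add_cancel_of_le]
        rw [Finsupp.single_le_iff]
        omega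
      have ha02 : a0 2 + 1 = x := by
        rw [← hax, ha0, Finsupp.add_apply, Finsupp.single_eq_same]
      have hid := nab_coeff _ _ _ _ hn j a0
      have hcf : ∀ j a, ((Psi m u (grd dd G) G (hes dd G) (aeval u J) V).coeff j).coeff a =
          cf u dd J m G V j a := fun j a => rfl
      simp only [hcf] at hid
      rw [Fin.sum_univ_three] at hid
      have hk : ∀ (n : ℕ) (c : F), c ∈ Bb k u → c * ((n : F) + 1) ∈ Bb k u := by
        intro n c hc
        have e : ((n : F) + 1) = algebraMap k F ((n : k) + 1) := by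
          rw [map_add, map_natCast, map_one]
        rw [e]
        exact (Bb k u).mul_mem hc ((Bb k u).algebraMap_mem _)
      have t0 : aeval u J * dd 0 G * (aeval u J * cf u dd J m G V j (a0 + Finsupp.single 0 1) / G *
          ((a0 0 : F) + 1)) ∈ Bb k u := by
        refine (Bb k u).mul_mem (hJg 0) (hk _ _ (ih (a0 2) (by omega) j _ ?_))
        rw [Finsupp.add_apply, Finsupp.single_eq_of_ne (by decide), add_zero]
      have t1 : aeval u J * dd 1 G * (aeval u J * cf u dd J m G V j (a0 + Finsupp.single 1 1) / G *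
          ((a0 1 : F) + 1)) ∈ Bb k u := by
        refine (Bb k u).mul_mem (hJg 1) (hk _ _ (ih (a0 2) (by omega) j _ ?_))
        rw [Finsupp.add_apply, Finsupp.single_eq_of_ne (by decide), add_zero]
      have t3 : ∑ y ∈ Finset.HasAntidiagonal.antidiagonal a0,
          aeval u J * (hM (grd dd G) (hes dd G) (aeval u J)).coeff y.1 *
            (aeval u J * cf u dd J m G V (j + 1) y.2 / G * ((j : F) + 1)) ∈ Bb k u := by
        refine (Bb k u).sum_mem fun y hy => ?_
        refine (Bb k u).mul_mem (hJM _) (hk _ _ (ih (y.2 2) ?_ _ _ rfl))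
        have h1 := Finset.HasAntidiagonal.mem_antidiagonal.1 hy
        have h2 : y.1 2 + y.2 2 = a0 2 := by rw [← h1, Finsupp.add_apply]
        omega
      have hneg := (Bb k u).neg_mem ((Bb k u).add_mem ((Bb k u).add_mem t0 t1) t3)
      have hkey : -(aeval u J * dd 0 G *
          (aeval u J * cf u dd J m G V j (a0 + Finsupp.single 0 1) / G *
          ((a0 0 : F) + 1)) + aeval u J * dd 1 G *
          (aeval u J * cf u dd J m G V j (a0 + Finsupp.single 1 1) / G * ((a0 1 : F) + 1)) +
          ∑ y ∈ Finset.HasAntidiagonal.antidiagonal a0,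
          aeval u J * (hM (grd dd G) (hes dd G) (aeval u J)).coeff y.1 *
            (aeval u J * cf u dd J m G V (j + 1) y.2 / G * ((j : F) + 1))) =
          aeval u J * dd 2 G * (aeval u J * cf u dd J m G V j a) / G * ((a0 2 : F) + 1) := by
        have hs : ∑ y ∈ Finset.HasAntidiagonal.antidiagonal a0,
          aeval u J * (hM (grd dd G) (hes dd G) (aeval u J)).coeff y.1 *
            (aeval u J * cf u dd J m G V (j + 1) y.2 / G * ((j : F) + 1)) =
            aeval u J * aeval u J / G *
            ∑ y ∈ Finset.HasAntidiagonal.antidiagonal a0, (hM (grd dd G) (hes dd G) (aeval u J)).coeff y.1 *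
              (cf u dd J m G V (j + 1) y.2 * ((j : F) + 1)) := by
          rw [Finset.mul_sum]
          refine Finset.sum_congr rfl fun y _ => ?_
          ring
        rw [hs, ha0]
        have hg : ∀ i, grd dd G i = dd i G := fun i => rfl
        rw [hg, hg, hg] at hid
        linear_combination (-(aeval u J * aeval u J / G)) * hid
      rw [hkey] at hneg
      have hprod : aeval u J * dd 2 G * (aeval u J * cf u dd J m G V j a) / G ∈ Bb k u := by
        have h1 := (Bb k u).mul_mem hneg ((Bb k u).algebraMap_mem (((a0 2 : k) + 1)⁻¹))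
        have h2 : ((a0 2 : F) + 1) ≠ 0 := by
          have e : ((a0 2 : F) + 1) = algebraMap k F ((a0 2 : k) + 1) := by
            rw [map_add, map_natCast, map_one]
          rw [e, map_ne_zero]
          exact_mod_cast Nat.succ_ne_zero (a0 2)
        have e : aeval u J * dd 2 G * (aeval u J * cf u dd J m G V j a) / G * ((a0 2 : F) + 1) *
            algebraMap k F (((a0 2 : k) + 1)⁻¹) =
            aeval u J * dd 2 G * (aeval u J * cf u dd J m G V j a) / G := by
          rw [map_inv₀, map_add, map_natCast, map_one]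
          field_simp
        rwa [e] at h1
      have hz : aeval u J * cf u dd J m G V j a ∈ Bb k u := (Bb k u).mul_mem hpi (hint j a)
      have h3 := hG.n2 _ hz hprod
      refine hG.red _ hz ?_
      have h4 := (Bb k u).mul_mem h3 (hint j a)
      have e : aeval u J * cf u dd J m G V j a * (aeval u J * cf u dd J m G V j a) / G =
          aeval u J * (aeval u J * cf u dd J m G V j a) / G * cf u dd J m G V j a := by ring
      rw [e]
      exact h4
  exact fun j a => hmain (a 2) j a rfl

end Pool.Agent.H19.SFV
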